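import Pool.Agent.Helper39.FT.Defs

/-!
# Multiplicities of roots and reduction (package LFT of helper39, not a result)
-/

set_option autoImplicit false

open Polynomial

namespace Pool.Agent.Helper83.FT

open Pool.Agent.Y791.BF Pool.Agent.Helper39.FT

lemma rm_aux {F : Type} [Field F] {P Q u w u2 w2 : F[X]} (e : ℕ) (b : F) (hP0 : P ≠ 0)
    (hb : P.eval b = 0) (h1 : u * P + w * derivative P = 1) (h2 : u2 * P + w2 * Q = 1) :
    (P ^ e * Q).rootMultiplicity b = e := by
  have hQb : Q.eval b ≠ 0 := by
    intro h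
    have := congrArg (eval b) h2
    simp [hb, h] at this
  have hQ0 : Q ≠ 0 := by
    rintro rfl
    simp at hQb
  have hP1 : P.rootMultiplicity b = 1 := by
    have hle : ¬ 1 < P.rootMultiplicity b := by
      rw [one_lt_rootMultiplicity_iff_isRoot hP0]
      rintro ⟨-, h⟩
      have := congrArg (eval b) h1
      rw [IsRoot.def] at h
      simp [hb, h] at this
    have hpos : 0 < P.rootMultiplicity b := (rootMultiplicity_pos hP0).2 hb
    omega
  rw [rootMultiplicity_mul (mul_ne_zero (pow_ne_zero _ hP0) hQ0), Types.rootMult_pow, hP1,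
    rootMultiplicity_eq_zero (by rwa [IsRoot.def])]
  ring

theorem main : S_LFT := by
  classical
  intro K _ _ A hA ρ
  have hint : IsIntegral K ρ := Algebra.IsIntegral.isIntegral ρ
  obtain ⟨P, hPdef⟩ : ∃ P, P = minpoly K ρ := ⟨_, rfl⟩
  have hirr : Irreducible P := hPdef ▸ minpoly.irreducible hint
  have hPm : P.Monic := hPdef ▸ minpoly.monic hint
  have hdeg : 0 < P.natDegree := hPdef ▸ minpoly.natDegree_pos hint
  have hfin : FiniteMultiplicity P A := by
    apply finiteMultiplicity_of_degree_pos_of_monic _ hPm hA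
    rw [degree_eq_natDegree hPm.ne_zero]
    exact_mod_cast hdeg
  obtain ⟨Q, hAQ, hPQ⟩ := hfin.exists_eq_pow_mul_and_not_dvd
  set e := multiplicity P A with he
  have hsep : IsCoprime P (derivative P) := hirr.separable
  have hcop : IsCoprime P Q := (hirr.coprime_iff_not_dvd).2 hPQ
  obtain ⟨u, w, h1⟩ := hsep
  obtain ⟨u2, w2, h2⟩ := hcop
  -- the multiplicity upstairs
  have hmu : Types.mu A ρ = e := by
    have hρ : (P.map (algebraMap K (AlgebraicClosure K))).eval ρ = 0 := by
      rw [eval_map_algebraMap, hPdef, minpoly.aeval]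
    have := rm_aux (F := AlgebraicClosure K) (P := P.map (algebraMap K _))
      (Q := Q.map (algebraMap K _)) (u := u.map (algebraMap K _)) (w := w.map (algebraMap K _))
      (u2 := u2.map (algebraMap K _)) (w2 := w2.map (algebraMap K _)) e ρ
      ((Polynomial.map_ne_zero_iff (algebraMap K (AlgebraicClosure K)).injective).2 hPm.ne_zero)
      hρ (by
        rw [derivative_map, ← Polynomial.map_mul, ← Polynomial.map_mul, ← Polynomial.map_add, h1,
          Polynomial.map_one]) (by
        rw [← Polynomial.map_mul, ← Polynomial.map_mul, ← Polynomial.map_add, h2,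
          Polynomial.map_one])
    rw [← Polynomial.map_pow, ← Polynomial.map_mul, ← hAQ] at this
    exact this
  refine ⟨P.coeffs ∪ Q.coeffs ∪ u.coeffs ∪ w.coeffs ∪ u2.coeffs ∪ w2.coeffs, ?_⟩
  intro D hZ A' hA'
  have hco : ∀ f : K[X], f.coeffs ⊆ P.coeffs ∪ Q.coeffs ∪ u.coeffs ∪ w.coeffs ∪ u2.coeffs ∪
      w2.coeffs → ∃ f' : D.B[X], f'.map D.B.subtype = f ∧ (f.Monic → f'.Monic) := by
    intro f hf
    have hf' : (f.coeffs : Set K) ⊆ D.B := by
      intro z hz
      have hz0 : z ≠ 0 := by
        rintro rfl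
        obtain ⟨n, hn, h0⟩ := mem_coeffs_iff.1 hz
        exact (mem_support_iff.1 hn) h0.symm
      exact (hZ z (hf hz) hz0).1
    refine ⟨f.toSubring D.B hf', map_toSubring _ _ _, fun hm => ?_⟩
    exact (monic_toSubring _ _ _).2 hm
  obtain ⟨P', hP', hPm'⟩ := hco P (fun z hz => by simp [hz])
  obtain ⟨Q', hQ', -⟩ := hco Q (fun z hz => by simp [hz])
  obtain ⟨u', hu', -⟩ := hco u (fun z hz => by simp [hz])
  obtain ⟨w', hw', -⟩ := hco w (fun z hz => by simp [hz])
  obtain ⟨u2', hu2', -⟩ := hco u2 (fun z hz => by simp [hz])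
  obtain ⟨w2', hw2', -⟩ := hco w2 (fun z hz => by simp [hz])
  have hinj : Function.Injective (Polynomial.map D.B.subtype) :=
    Polynomial.map_injective _ D.B.subtype_injective
  have hPM := hPm' hPm
  have e1 : u' * P' + w' * derivative P' = 1 := by
    apply hinj
    rw [Polynomial.map_add, Polynomial.map_mul, Polynomial.map_mul, ← derivative_map, hu', hP',
      hw', h1, Polynomial.map_one]
  have e2 : u2' * P' + w2' * Q' = 1 := by
    apply hinj
    rw [Polynomial.map_add, Polynomial.map_mul, Polynomial.map_mul, hu2', hP', hw2', hQ', h2,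
      Polynomial.map_one]
  have e3 : A' = P' ^ e * Q' := by
    apply hinj
    rw [Polynomial.map_mul, Polynomial.map_pow, hP', hQ', hA', hAQ]
  set φ : D.B →+* AlgebraicClosure (ZMod D.p) :=
    (algebraMap (ZMod D.p) (AlgebraicClosure (ZMod D.p))).comp D.r with hφ
  have hdeg' : (P'.map φ).natDegree = P.natDegree := by
    rw [hPM.natDegree_map, ← hP', hPM.natDegree_map]
  obtain ⟨b, hb⟩ : ∃ b, IsRoot (P'.map φ) b := by
    apply IsAlgClosed.exists_root
    intro h0
    have h3 : (P'.map φ).natDegree = 0 := natDegree_eq_of_degree_eq_some (n := 0) (by simpa using h0)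
    omega
  refine ⟨b, ?_⟩
  rw [hmu, e3, Polynomial.map_mul, Polynomial.map_pow]
  refine (rm_aux (u := u'.map φ) (w := w'.map φ) (u2 := u2'.map φ) (w2 := w2'.map φ) e b
    (hPM.map φ).ne_zero hb ?_ ?_).symm
  · rw [derivative_map, ← Polynomial.map_mul, ← Polynomial.map_mul, ← Polynomial.map_add, e1,
      Polynomial.map_one]
  · rw [← Polynomial.map_mul, ← Polynomial.map_mul, ← Polynomial.map_add, e2,
      Polynomial.map_one]

end Pool.Agent.Helper83.FT
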