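import Pool.Agent.Helper39.FT.Defs
import Pool.Agent.Helper39.BS.Pow

/-!
# Algebraicity of values (package ALG of helper39, not a result)
-/

set_option autoImplicit false

open Polynomial

namespace Pool.Agent.Helper83.FT

open Pool.Agent.TH954 Pool.Agent.Y791.BF Pool.Agent.Helper39.FT

/-- ALG: values of a function whose classes are those of rational functions up to constants are
algebraic. `V` gives the values of the function; the class of `V` is `d G1 / G2`, that of `V - 1` is
`e G3 / G4`, and these are not both constant. -/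
def S_ALG2 : Prop :=
  ∀ (K : Type) [Field K] [CharZero K],
  ∀ (i : PlF K) (V : i.Lv → Option i.Lv) (G1 G2 G3 G4 : K[X]), G1 ≠ 0 → G2 ≠ 0 → G3 ≠ 0 → G4 ≠ 0 →
  ((∀ c : K, C c * G1 ≠ G2) ∨ ∀ c : K, C c * G3 ≠ G4) →
  (∀ N : ℕ, 0 < N → ∃ d e : K, d ≠ 0 ∧ e ≠ 0 ∧
    (∀ t : i.Lv, Transcendental K t → ∀ u, V t = some u →
      (∃ γ : i.Lv, u * aeval t G2 = algebraMap K i.Lv d * aeval t G1 * γ ^ N) ∧
      ∃ γ : i.Lv, (u - 1) * aeval t G4 = algebraMap K i.Lv e * aeval t G3 * γ ^ N) ∧
    ∀ t : i.Lv, Transcendental K t → V t = none →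
      ∃ γ : i.Lv, algebraMap K i.Lv d * aeval t G4 * aeval t G1 =
        algebraMap K i.Lv e * aeval t G3 * aeval t G2 * γ ^ N) →
  ∀ t : i.Lv, Transcendental K t → ∀ u, V t = some u →
    ∃ P Q : K[X], Q ≠ 0 ∧ u * aeval t Q = aeval t P

section gen

variable {K L : Type} [Field K] [Field L] [Algebra K L]

lemma map_eq_of_inf {A B : L[X]} {T : Set L} (hT : T.Infinite)
    (h : ∀ t ∈ T, A.eval t = B.eval t) : A = B :=
  Polynomial.eq_of_infinite_eval_eq A B (hT.mono fun t ht => h t ht)

lemma rat_const {A B : K[X]} (hB : B ≠ 0) {κ : L} {T : Set L} (hT : T.Infinite)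
    (h : ∀ t ∈ T, aeval t A = κ * aeval t B) :
    ∃ c : K, A = C c * B ∧ algebraMap K L c = κ := by
  have e1 : A.map (algebraMap K L) = C κ * B.map (algebraMap K L) := by
    apply map_eq_of_inf hT
    intro t ht
    rw [eval_mul, eval_C, eval_map_algebraMap, eval_map_algebraMap]
    exact h t ht
  have hc : ∀ n, algebraMap K L (A.coeff n) = κ * algebraMap K L (B.coeff n) := by
    intro n
    have := congrArg (fun p : L[X] => p.coeff n) e1
    simpa using this
  have hn : B.coeff B.natDegree ≠ 0 := by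
    rw [coeff_natDegree]
    exact leadingCoeff_ne_zero.2 hB
  have hn' : algebraMap K L (B.coeff B.natDegree) ≠ 0 := (_root_.map_ne_zero _).2 hn
  have hk : algebraMap K L (A.coeff B.natDegree / B.coeff B.natDegree) = κ := by
    rw [map_div₀, hc, mul_div_assoc, div_self hn', mul_one]
  refine ⟨_, ?_, hk⟩
  apply Polynomial.map_injective _ (algebraMap K L).injective
  rw [Polynomial.map_mul, map_C, hk, e1]

lemma lin {a b c : K[X]} (hb : b ≠ 0) {lam mu : L} {T : Set L} (hT : T.Infinite)
    (h : ∀ t ∈ T, aeval t c = lam * aeval t a - mu * aeval t b) :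
    (∃ l : K, algebraMap K L l = lam) ∨ ∃ k k' : K, a = C k * b ∧ c = C k' * b := by
  have e1 : c.map (algebraMap K L) = C lam * a.map (algebraMap K L) -
      C mu * b.map (algebraMap K L) := by
    apply map_eq_of_inf hT
    intro t ht
    simp only [eval_sub, eval_mul, eval_C, eval_map_algebraMap]
    exact h t ht
  have hc : ∀ n, algebraMap K L (c.coeff n) = lam * algebraMap K L (a.coeff n) -
      mu * algebraMap K L (b.coeff n) := by
    intro n
    have := congrArg (fun p : L[X] => p.coeff n) e1
    simpa using this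
  by_cases hpr : ∀ m n, a.coeff m * b.coeff n = a.coeff n * b.coeff m
  · right
    have hn : b.coeff b.natDegree ≠ 0 := by
      rw [coeff_natDegree]
      exact leadingCoeff_ne_zero.2 hb
    have ha : a = C (a.coeff b.natDegree / b.coeff b.natDegree) * b := by
      ext m
      rw [coeff_C_mul, div_mul_eq_mul_div, eq_div_iff hn]
      exact hpr m b.natDegree
    refine ⟨_, c.coeff b.natDegree / b.coeff b.natDegree, ha, ?_⟩
    ext m
    rw [coeff_C_mul, div_mul_eq_mul_div, eq_div_iff hn]
    apply (algebraMap K L).injective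
    rw [map_mul, map_mul, hc, hc]
    have h3 := congrArg (algebraMap K L) (hpr m b.natDegree)
    rw [map_mul, map_mul] at h3
    linear_combination lam * h3
  · left
    push Not at hpr
    obtain ⟨m, n, hmn⟩ := hpr
    have hD : a.coeff m * b.coeff n - a.coeff n * b.coeff m ≠ 0 := sub_ne_zero.2 hmn
    have hD' : algebraMap K L (a.coeff m * b.coeff n - a.coeff n * b.coeff m) ≠ 0 :=
      (_root_.map_ne_zero _).2 hD
    refine ⟨(c.coeff m * b.coeff n - c.coeff n * b.coeff m) /
      (a.coeff m * b.coeff n - a.coeff n * b.coeff m), ?_⟩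
    rw [map_div₀, div_eq_iff hD']
    simp only [map_sub, map_mul, hc]
    ring

/-- quotients which are powers of all exponents are one -/
lemma eq_of_pow (hP : ∀ η : L, η ≠ 0 → (∀ N : ℕ, 0 < N → ∃ y : L, y ^ N = η) → η = 1)
    {x y : L} (hx : x ≠ 0) (hy : y ≠ 0)
    (h : ∀ N : ℕ, 0 < N → ∃ d γ γ' : L, d ≠ 0 ∧ x = d * γ ^ N ∧ y = d * γ' ^ N) : x = y := by
  have h1 : x / y = 1 := by
    apply hP _ (div_ne_zero hx hy)
    intro N hN
    obtain ⟨d, γ, γ', hd, h1, h2⟩ := h N hN
    refine ⟨γ / γ', ?_⟩
    have hγ' : γ' ^ N ≠ 0 := by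
      intro h0
      rw [h0, mul_zero] at h2
      exact hy h2
    rw [div_pow, h1, h2, mul_div_mul_left _ _ hd]
  exact (div_eq_one_iff_eq hy).1 h1

end gen

theorem alg2 : S_ALG2 := by
  classical
  intro K _ _ i V G1 G2 G3 G4 hG1 hG2 hG3 hG4 hcon H t ht u hu
  have hP : ∀ η : i.Lv, η ≠ 0 → (∀ N : ℕ, 0 < N → ∃ y : i.Lv, y ^ N = η) → η = 1 := by
    intro η h0 h
    by_contra h1
    obtain ⟨n, hn, hno⟩ := Pool.Agent.Helper39.BS.not_pow i.v h0 h1
    obtain ⟨y, hy⟩ := h n hn
    exact hno y hy
  by_cases hu0 : u = 0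
  · exact ⟨0, 1, one_ne_zero, by simp [hu0]⟩
  by_cases hu1 : u = 1
  · exact ⟨1, 1, one_ne_zero, by simp [hu1]⟩
  have hne : ∀ {t : i.Lv}, Transcendental K t → ∀ {G : K[X]}, G ≠ 0 → aeval t G ≠ 0 := by
    intro t ht G hG h0
    exact hG ((transcendental_iff.1 ht) G h0)
  set S : Set i.Lv := {t | Transcendental K t ∧ ∃ u, V t = some u ∧ u ≠ 0 ∧ u ≠ 1} with hS
  have hmap : ∀ {d : K}, d ≠ 0 → algebraMap K i.Lv d ≠ 0 := fun hd => (_root_.map_ne_zero _).2 hd
  by_cases hfin : S.Infinite
  · -- generic values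
    have hlam : ∀ s ∈ S, ∀ w, V s = some w → w * aeval s G2 / aeval s G1 =
        u * aeval t G2 / aeval t G1 := by
      rintro s ⟨hs, w', hw', hw0, hw1⟩ w hw
      rw [hw] at hw'
      obtain rfl : w = w' := Option.some_injective _ hw'
      apply eq_of_pow hP
      · exact div_ne_zero (mul_ne_zero hw0 (hne hs hG2)) (hne hs hG1)
      · exact div_ne_zero (mul_ne_zero hu0 (hne ht hG2)) (hne ht hG1)
      · intro N hN
        obtain ⟨d, e, hd, -, h1, -⟩ := H N hN
        obtain ⟨γ, hγ⟩ := (h1 s hs w hw).1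
        obtain ⟨γ', hγ'⟩ := (h1 t ht u hu).1
        refine ⟨algebraMap K i.Lv d, γ, γ', hmap hd, ?_, ?_⟩
        · rw [hγ, div_eq_iff (hne hs hG1)]; ring
        · rw [hγ', div_eq_iff (hne ht hG1)]; ring
    have hmu : ∀ s ∈ S, ∀ w, V s = some w → (w - 1) * aeval s G4 / aeval s G3 =
        (u - 1) * aeval t G4 / aeval t G3 := by
      rintro s ⟨hs, w', hw', hw0, hw1⟩ w hw
      rw [hw] at hw'
      obtain rfl : w = w' := Option.some_injective _ hw'
      apply eq_of_pow hP
      · exact div_ne_zero (mul_ne_zero (sub_ne_zero.2 hw1) (hne hs hG4)) (hne hs hG3)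
      · exact div_ne_zero (mul_ne_zero (sub_ne_zero.2 hu1) (hne ht hG4)) (hne ht hG3)
      · intro N hN
        obtain ⟨d, e, -, he, h1, -⟩ := H N hN
        obtain ⟨γ, hγ⟩ := (h1 s hs w hw).2
        obtain ⟨γ', hγ'⟩ := (h1 t ht u hu).2
        refine ⟨algebraMap K i.Lv e, γ, γ', hmap he, ?_, ?_⟩
        · rw [hγ, div_eq_iff (hne hs hG3)]; ring
        · rw [hγ', div_eq_iff (hne ht hG3)]; ring
    set lam : i.Lv := u * aeval t G2 / aeval t G1 with hlamdef
    set mu : i.Lv := (u - 1) * aeval t G4 / aeval t G3 with hmudef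
    have hrel : ∀ s ∈ S, aeval s (G2 * G4) = lam * aeval s (G1 * G4) - mu * aeval s (G3 * G2) := by
      intro s hsS
      obtain ⟨hs, w, hw, hw0, hw1⟩ := hsS
      have e1 := hlam s ⟨hs, w, hw, hw0, hw1⟩ w hw
      have e2 := hmu s ⟨hs, w, hw, hw0, hw1⟩ w hw
      rw [div_eq_iff (hne hs hG1)] at e1
      rw [div_eq_iff (hne hs hG3)] at e2
      simp only [map_mul]
      linear_combination aeval s G4 * e1 - aeval s G2 * e2
    have hu2 : u * aeval t G2 = lam * aeval t G1 := by
      rw [hlamdef, div_mul_cancel₀ _ (hne ht hG1)]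
    rcases lin (mul_ne_zero hG3 hG2) hfin hrel with ⟨l, hl⟩ | ⟨k, k', hk, hk'⟩
    · refine ⟨C l * G1, G2, hG2, ?_⟩
      rw [hu2, map_mul, aeval_C, hl]
    · exfalso
      -- both classes are constant
      have e1 : G4 = C k' * G3 := by
        apply mul_left_cancel₀ hG2
        rw [hk']; ring
      have hk'0 : k' ≠ 0 := by
        rintro rfl
        rw [C_0, zero_mul] at e1
        exact hG4 e1
      have e2 : C k' * G1 = C k * G2 := by
        apply mul_right_cancel₀ hG3
        calc C k' * G1 * G3 = G1 * G4 := by rw [e1]; ring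
          _ = C k * G2 * G3 := by rw [hk]; ring
      have hk0 : k ≠ 0 := by
        rintro rfl
        rw [C_0, zero_mul] at e2
        exact (mul_ne_zero (C_ne_zero.2 hk'0) hG1) e2
      rcases hcon with h | h
      · apply h (k' / k)
        have : C k * (C (k' / k) * G1) = C k * G2 := by
          rw [← mul_assoc, ← C_mul, mul_div_cancel₀ _ hk0, e2]
        exact mul_left_cancel₀ (C_ne_zero.2 hk0) this
      · exact h k' e1.symm
  · exfalso
    rw [Set.not_infinite] at hfin
    -- infinitely many transcendental elements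
    set T : Set i.Lv := Set.range (fun n : ℕ => t + (n : i.Lv)) with hTdef
    have hTt : ∀ s ∈ T, Transcendental K s := by
      rintro s ⟨n, rfl⟩ h
      apply ht
      have : t = (t + (n : i.Lv)) - (n : i.Lv) := by ring
      rw [this]
      exact h.sub (isAlgebraic_algebraMap (R := K) (A := i.Lv) (n : K) |> fun h => by
        simpa using h)
    haveI : CharZero i.Lv := charZero_of_injective_algebraMap (algebraMap K i.Lv).injective
    have hTinf : T.Infinite := Set.infinite_range_of_injective (fun a b hab => by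
      have := add_left_cancel hab
      exact_mod_cast this)
    have hT' : (T \ S).Infinite := hTinf.diff hfin
    have hcover : T \ S ⊆ ({s ∈ T | V s = some 0} ∪ {s ∈ T | V s = some 1}) ∪
        {s ∈ T | V s = none} := by
      rintro s ⟨hsT, hsS⟩
      rcases hV : V s with _ | w
      · exact Or.inr ⟨hsT, hV⟩
      · left
        by_cases hw0 : w = 0
        · exact Or.inl ⟨hsT, by rw [hV, hw0]⟩
        by_cases hw1 : w = 1
        · exact Or.inr ⟨hsT, by rw [hV, hw1]⟩
        exact absurd ⟨hTt s hsT, w, hV, hw0, hw1⟩ hsS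
    have h3 := hT'.mono hcover
    rw [Set.infinite_union, Set.infinite_union] at h3
    rcases h3 with (h3 | h3) | h3
    · -- the value zero infinitely often
      obtain ⟨s0, hs0T, hs0⟩ := h3.nonempty
      have hs0t := hTt s0 hs0T
      obtain ⟨c, hc, -⟩ := rat_const hG3 (κ := aeval s0 G4 / aeval s0 G3) h3 (A := G4) (by
        rintro s ⟨hsT, hsV⟩
        have hs := hTt s hsT
        have := eq_of_pow hP (x := aeval s G4 / aeval s G3) (y := aeval s0 G4 / aeval s0 G3)
          (div_ne_zero (hne hs hG4) (hne hs hG3)) (div_ne_zero (hne hs0t hG4) (hne hs0t hG3)) (by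
            intro N hN
            obtain ⟨d, e, -, he, h1, -⟩ := H N hN
            obtain ⟨γ, hγ⟩ := (h1 s hs 0 hsV).2
            obtain ⟨γ', hγ'⟩ := (h1 s0 hs0t 0 hs0).2
            refine ⟨-algebraMap K i.Lv e, γ, γ', neg_ne_zero.2 (hmap he), ?_, ?_⟩
            · rw [div_eq_iff (hne hs hG3)]; linear_combination -hγ
            · rw [div_eq_iff (hne hs0t hG3)]; linear_combination -hγ')
        rw [← this, div_mul_cancel₀ _ (hne hs hG3)])
      have hc0 : c ≠ 0 := by
        rintro rfl
        rw [C_0, zero_mul] at hc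
        exact hG4 hc
      have h4 : (u - 1) * algebraMap K i.Lv c = -1 * algebraMap K i.Lv c := by
        apply eq_of_pow hP
        · exact mul_ne_zero (sub_ne_zero.2 hu1) (hmap hc0)
        · exact mul_ne_zero (neg_ne_zero.2 one_ne_zero) (hmap hc0)
        · intro N hN
          obtain ⟨d, e, -, he, h1, -⟩ := H N hN
          obtain ⟨γ, hγ⟩ := (h1 t ht u hu).2
          obtain ⟨γ', hγ'⟩ := (h1 s0 hs0t 0 hs0).2
          refine ⟨algebraMap K i.Lv e, γ, γ', hmap he, ?_, ?_⟩
          · apply mul_right_cancel₀ (hne ht hG3)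
            rw [hc, map_mul, aeval_C] at hγ
            linear_combination hγ
          · apply mul_right_cancel₀ (hne hs0t hG3)
            rw [hc, map_mul, aeval_C] at hγ'
            linear_combination hγ'
      have h5 := mul_right_cancel₀ (hmap hc0) h4
      exact hu0 (by linear_combination h5)
    · -- the value one infinitely often
      obtain ⟨s0, hs0T, hs0⟩ := h3.nonempty
      have hs0t := hTt s0 hs0T
      obtain ⟨c, hc, -⟩ := rat_const hG1 (κ := aeval s0 G2 / aeval s0 G1) h3 (A := G2) (by
        rintro s ⟨hsT, hsV⟩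
        have hs := hTt s hsT
        have := eq_of_pow hP (x := aeval s G2 / aeval s G1) (y := aeval s0 G2 / aeval s0 G1)
          (div_ne_zero (hne hs hG2) (hne hs hG1)) (div_ne_zero (hne hs0t hG2) (hne hs0t hG1)) (by
            intro N hN
            obtain ⟨d, e, hd, -, h1, -⟩ := H N hN
            obtain ⟨γ, hγ⟩ := (h1 s hs 1 hsV).1
            obtain ⟨γ', hγ'⟩ := (h1 s0 hs0t 1 hs0).1
            refine ⟨algebraMap K i.Lv d, γ, γ', hmap hd, ?_, ?_⟩
            · rw [div_eq_iff (hne hs hG1)]; linear_combination hγ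
            · rw [div_eq_iff (hne hs0t hG1)]; linear_combination hγ')
        rw [← this, div_mul_cancel₀ _ (hne hs hG1)])
      have hc0 : c ≠ 0 := by
        rintro rfl
        rw [C_0, zero_mul] at hc
        exact hG2 hc
      have h4 : u * algebraMap K i.Lv c = 1 * algebraMap K i.Lv c := by
        apply eq_of_pow hP
        · exact mul_ne_zero hu0 (hmap hc0)
        · exact mul_ne_zero one_ne_zero (hmap hc0)
        · intro N hN
          obtain ⟨d, e, hd, -, h1, -⟩ := H N hN
          obtain ⟨γ, hγ⟩ := (h1 t ht u hu).1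
          obtain ⟨γ', hγ'⟩ := (h1 s0 hs0t 1 hs0).1
          refine ⟨algebraMap K i.Lv d, γ, γ', hmap hd, ?_, ?_⟩
          · apply mul_right_cancel₀ (hne ht hG1)
            rw [hc, map_mul, aeval_C] at hγ
            linear_combination hγ
          · apply mul_right_cancel₀ (hne hs0t hG1)
            rw [hc, map_mul, aeval_C] at hγ'
            linear_combination hγ'
      exact hu1 (mul_right_cancel₀ (hmap hc0) h4)
    · -- the value infinity infinitely often
      obtain ⟨s0, hs0T, hs0⟩ := h3.nonempty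
      have hs0t := hTt s0 hs0T
      have h32 : G3 * G2 ≠ 0 := mul_ne_zero hG3 hG2
      have h41 : G4 * G1 ≠ 0 := mul_ne_zero hG4 hG1
      obtain ⟨c, hc, -⟩ := rat_const h32
          (κ := aeval s0 (G4 * G1) / aeval s0 (G3 * G2)) h3 (A := G4 * G1) (by
        rintro s ⟨hsT, hsV⟩
        have hs := hTt s hsT
        have := eq_of_pow hP (x := aeval s (G4 * G1) / aeval s (G3 * G2))
          (y := aeval s0 (G4 * G1) / aeval s0 (G3 * G2))
          (div_ne_zero (hne hs h41) (hne hs h32)) (div_ne_zero (hne hs0t h41) (hne hs0t h32)) (by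
            intro N hN
            obtain ⟨d, e, hd, he, -, h1⟩ := H N hN
            obtain ⟨γ, hγ⟩ := h1 s hs hsV
            obtain ⟨γ', hγ'⟩ := h1 s0 hs0t hs0
            refine ⟨algebraMap K i.Lv e / algebraMap K i.Lv d, γ, γ',
              div_ne_zero (hmap he) (hmap hd), ?_, ?_⟩
            · rw [div_eq_iff (hne hs h32), map_mul, map_mul, div_mul_eq_mul_div,
                div_mul_eq_mul_div, eq_div_iff (hmap hd)]
              linear_combination hγ
            · rw [div_eq_iff (hne hs0t h32), map_mul, map_mul, div_mul_eq_mul_div,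
                div_mul_eq_mul_div, eq_div_iff (hmap hd)]
              linear_combination hγ')
        rw [← this, div_mul_cancel₀ _ (hne hs h32)])
      have hc0 : c ≠ 0 := by
        rintro rfl
        rw [C_0, zero_mul] at hc
        exact h41 hc
      have h4 : (u - 1) = u := by
        apply eq_of_pow hP (sub_ne_zero.2 hu1) hu0
        intro N hN
        obtain ⟨d, e, hd, he, h1, h2⟩ := H N hN
        obtain ⟨γ1, hγ1⟩ := (h1 t ht u hu).1
        obtain ⟨γ2, hγ2⟩ := (h1 t ht u hu).2
        obtain ⟨γ3, hγ3⟩ := h2 s0 hs0t hs0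
        have hca : ∀ {s : i.Lv}, aeval s G4 * aeval s G1 =
            algebraMap K i.Lv c * (aeval s G3 * aeval s G2) := by
          intro s
          rw [← map_mul, hc, map_mul, aeval_C, map_mul]
        -- `d c = e γ3 ^ N`
        have h5 : algebraMap K i.Lv d * algebraMap K i.Lv c = algebraMap K i.Lv e * γ3 ^ N := by
          apply mul_right_cancel₀ (hne hs0t h32)
          rw [map_mul]
          have := hca (s := s0)
          linear_combination hγ3 - algebraMap K i.Lv d * this
        have hγ3' : γ3 ^ N ≠ 0 := by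
          intro h0
          rw [h0, mul_zero] at h5
          exact (mul_ne_zero (hmap hd) (hmap hc0)) h5
        have hγ3'' : γ3 ≠ 0 := by
          rintro rfl
          rw [zero_pow hN.ne'] at hγ3'
          exact hγ3' rfl
        refine ⟨algebraMap K i.Lv e * aeval t G3 / aeval t G4, γ2, γ3 * γ1,
          div_ne_zero (mul_ne_zero (hmap he) (hne ht hG3)) (hne ht hG4), ?_, ?_⟩
        · rw [div_mul_eq_mul_div, eq_div_iff (hne ht hG4)]
          exact hγ2
        · rw [div_mul_eq_mul_div, eq_div_iff (hne ht hG4), mul_pow]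
          apply mul_right_cancel₀ (hne ht hG2)
          have := hca (s := t)
          calc u * aeval t G4 * aeval t G2 = (u * aeval t G2) * aeval t G4 := by ring
            _ = algebraMap K i.Lv d * (aeval t G4 * aeval t G1) * γ1 ^ N := by rw [hγ1]; ring
            _ = (algebraMap K i.Lv d * algebraMap K i.Lv c) * (aeval t G3 * aeval t G2) *
                γ1 ^ N := by rw [this]; ring
            _ = _ := by rw [h5]; ring
      exact one_ne_zero (α := i.Lv) (by linear_combination -h4)

end Pool.Agent.Helper83.FT
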